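import Mathlib
import Pool.Agent.Helper606_LC.Fd3

/-!
# A bound for the cyclotomic deficiency of all irreducible characters of all finite groups

Let `G` be a finite group, `χ` an irreducible complex character of `G`, `n` the conductor of `χ` and
`D` the cyclotomic deficiency of `χ`, the degree of the cyclotomic field of the roots of unity of
order dividing `n` over the field of values of `χ`. There is a positive integer `t` such that
`D ≤ t χ(1)` and `t ^ 5 ≤ D`. So `D ^ 4 ≤ χ(1) ^ 5`, and `D ≤ χ(1)` if `D < 32`.
-/

set_option autoImplicit false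

namespace Pool.Agent.Results.MP_fb2360_al.UniversalBound

open Pool.Agent.Helper606_LC Pool.Agent.W446.AS

/-- The cyclotomic field of the roots of unity of order dividing `m`. -/
noncomputable def Cyc (m : ℕ) : IntermediateField ℚ ℂ :=
  IntermediateField.adjoin ℚ {z : ℂ | z ^ m = 1}

/-- The field generated over `ℚ` by the values of `χ`. -/
noncomputable def ValField {G : Type} (χ : G → ℂ) : IntermediateField ℚ ℂ :=
  IntermediateField.adjoin ℚ (Set.range χ)

/-- `n` is the conductor of `χ`: the least positive integer such that the field of values of `χ`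
lies in the cyclotomic field of the roots of unity of order dividing `n`. -/
def IsCond {G : Type} (χ : G → ℂ) (n : ℕ) : Prop :=
  0 < n ∧ ValField χ ≤ Cyc n ∧ ∀ m : ℕ, 0 < m → ValField χ ≤ Cyc m → n ≤ m

/-- The degree of the cyclotomic field of the roots of unity of order dividing `n` over the field
of values of `χ`. For the conductor `n` of `χ` this is the cyclotomic deficiency of `χ`. -/
noncomputable def deficiency {G : Type} (χ : G → ℂ) (n : ℕ) : ℕ :=
  IntermediateField.relfinrank (ValField χ) (Cyc n)

lemma val_le_iff {G : Type} (χ : G → ℂ) (m : ℕ) : ValField χ ≤ Cyc m ↔ ∀ g, χ g ∈ Cyc m := by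
  rw [ValField, IntermediateField.adjoin_le_iff, Set.range_subset_iff]
  rfl

/-- The bound for the cyclotomic deficiency. -/
theorem result (G : Type) [Group G] [Fintype G] (V : FDRep ℂ G) (hV : CategoryTheory.Simple V)
    (n : ℕ) (hn : IsCond V.character n) :
    ∃ t : ℕ, 0 < t ∧ deficiency V.character n ≤ t * Module.finrank ℂ V ∧
      t ^ 5 ≤ deficiency V.character n := by
  classical
  have hN : 0 < Nat.card G * n := Nat.mul_pos Nat.card_pos hn.1
  have h := (val_le_iff _ n).mp hn.2.1
  have hirr := irr_of_simple V hV
  obtain ⟨t, ht, h1, h2⟩ := defic_univ (ρ := V.ρ) hirr hn.1 h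
    (fun m' h1 h2 => hn.2.2 m' h1 ((val_le_iff _ m').mpr h2))
  refine ⟨t, ht, h1, h2.trans ?_⟩
  refine Nat.le_of_dvd ?_ (IntermediateField.relfinrank_dvd_of_le_left _ le_sup_left)
  have h3 : IntermediateField.relfinrank (ValField V.character) (Cyc n) = _ :=
    rel_deg hN (hn.2.1.trans (qc_mono (dvd_mul_left n (Nat.card G))))
      (qc_mono (dvd_mul_left n (Nat.card G))) hn.2.1
  change 0 < IntermediateField.relfinrank (ValField V.character) (Cyc n)
  rw [h3]
  have hN' : NeZero (Nat.card G * n) := ⟨hN.ne'⟩
  exact Nat.pos_of_ne_zero Subgroup.index_ne_zero_of_finite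

end Pool.Agent.Results.MP_fb2360_al.UniversalBound
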